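import Pool.Agent.T9h29.HC.Spec3
import Pool.Agent.T9h51.HC.Kh2

set_option autoImplicit false

/-! Project HC (helper29), third round: KH3 (helper52; after helper49, helper51): the error from freezing
the amplitudes, in dyadic blocks and with the decay of the amplitudes. -/

namespace Pool.Agent.T9h52.HC

open Complex Filter Topology MeasureTheory Set
open Pool.Agent.Y969.GP (ff V V1 ht lam PS FR co cr PX mk mB)
open Pool.Agent.N879.PZ (ee HH Wb)
open Pool.Agent.N879.PZ.Khaux (ee_add ee_norm ee_cont cs_int int_mul int_sq int_inv_sq exists_blk norm_sum_sq blk_arith)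
open Pool.Agent.T9h29.HC (Par2 S_KH3)
open Pool.Agent.T9h51.HC.K2 (par blk)

noncomputable section

/-- arithmetic of one block of the error -/
lemma err_arith {T U a K : ℝ} (hT : 0 < T) (hU : 1 ≤ U) (ha : T / 2 ≤ a)
    (hK : 0 < K) :
    (T + 2 * K) * (min (U / a) (min 1 ((2 * T / K) ^ 2))) ^ 2 ≤ 24 * (U ^ 2 / T + U) := by
  have ha0 : 0 < a := by linarith
  have hU0 : 0 < U := by linarith
  have hUa : U / a ≤ 2 * U / T := by
    rw [div_le_div_iff₀ ha0 hT]
    nlinarith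
  have hUa0 : 0 ≤ U / a := by positivity
  have hm0 : 0 ≤ min 1 ((2 * T / K) ^ 2) := le_min zero_le_one (by positivity)
  have hμ0 : 0 ≤ min (U / a) (min 1 ((2 * T / K) ^ 2)) := le_min hUa0 hm0
  have hR0 : 0 ≤ U ^ 2 / T := by positivity
  rcases le_or_gt K T with h | h
  · have h1 : (min (U / a) (min 1 ((2 * T / K) ^ 2))) ^ 2 ≤ (2 * U / T) ^ 2 :=
      pow_le_pow_left₀ hμ0 ((min_le_left _ _).trans hUa) 2
    calc (T + 2 * K) * (min (U / a) (min 1 ((2 * T / K) ^ 2))) ^ 2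
        ≤ (3 * T) * (2 * U / T) ^ 2 := by
          gcongr
          linarith
      _ = 12 * (U ^ 2 / T) := by
          field_simp
          ring
      _ ≤ _ := by linarith
  · have h1 : (min (U / a) (min 1 ((2 * T / K) ^ 2))) ^ 2 ≤ (2 * U / T) * (2 * T / K) ^ 2 := by
      rw [sq]
      exact mul_le_mul ((min_le_left _ _).trans hUa)
        ((min_le_right _ _).trans (min_le_right _ _)) hμ0 (by positivity)
    have h2 : T / K ≤ 1 := (div_le_one hK).2 h.le
    calc (T + 2 * K) * (min (U / a) (min 1 ((2 * T / K) ^ 2))) ^ 2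
        ≤ (3 * K) * ((2 * U / T) * (2 * T / K) ^ 2) := by
          gcongr
          linarith
      _ = 24 * U * (T / K) := by
          field_simp
          ring
      _ ≤ 24 * U * 1 := by gcongr
      _ ≤ _ := by linarith

/-- the error from freezing the amplitudes, one block -/
lemma err3 {C1 C3 C4 : ℝ} (hC1 : 0 < C1) (hC3 : 0 < C3) (hC4 : 0 < C4)
    (hcrd : ∀ (X : ℕ) (p : ℕ × ℕ) (u : ℝ), 1 ≤ X → 1 ≤ p.1 → 1 ≤ p.2 → 0 < u →
      |cr X p u| ≤ C1 * (1 + Real.log X) * (√(ht p))⁻¹ * min 1 ((u / ht p) ^ 2) ∧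
      |u * deriv (cr X p) u| ≤ C1 * (1 + Real.log X) * (√(ht p))⁻¹ * min 1 ((u / ht p) ^ 2))
    (hlt : ∀ (K : ℕ) (a T w : ℝ) (S : Finset (ℕ × ℕ)) (A A' : ℕ × ℕ → ℝ → ℂ),
      1 ≤ K → 1 ≤ T → 0 ≤ a → a ≤ T → 0 ≤ w → S ⊆ FR K →
      (∀ p ∈ S, ∀ x ∈ Icc a T, HasDerivAt (A p) (A' p x) x) →
      (∀ p ∈ S, ContinuousOn (A' p) (Icc a T)) →
      (∀ p ∈ S, ∀ x ∈ Icc a T, ‖A p x‖ ≤ w) → (∀ p ∈ S, ∫ x in a..T, ‖A' p x‖ ≤ w) →
      (∀ b : ℕ × ℕ → ℂ, ∫ t in a..T, ‖∑ p ∈ S, b p * (A p t * ee t p)‖ ^ 2 ≤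
        C3 * ((T + K) * (1 + Real.log K)) * w ^ 2 * ∑ p ∈ S, ‖b p‖ ^ 2) ∧
      ∀ F : ℝ → ℂ, Wb a T F → ∑ p ∈ S, ‖∫ t in a..T, F t * (A p t * ee t p)‖ ^ 2 ≤
        C3 * ((T + K) * (1 + Real.log K)) * w ^ 2 * ∫ t in a..T, ‖F t‖ ^ 2)
    (hcr : ∀ (X : ℕ) (p : ℕ × ℕ), p ∈ FR X → ∀ u : ℝ, 0 < u →
      DifferentiableAt ℝ (cr X p) u ∧ DifferentiableAt ℝ (deriv (cr X p)) u ∧
      ContinuousAt (deriv (deriv (cr X p))) u ∧
      |cr X p u| ≤ C4 * (1 + Real.log X) * (√(ht p))⁻¹ ∧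
      |u * deriv (cr X p) u| ≤ C4 * (1 + Real.log X) * (√(ht p))⁻¹ ∧
      |u ^ 2 * deriv (deriv (cr X p)) u| ≤ C4 * (1 + Real.log X) * (√(ht p))⁻¹)
    {T U a : ℝ} {N X K : ℕ} (hP : Par2 T U a N) (hX1 : 1 ≤ X)
    (hX2 : (X : ℝ) ≤ 5 * T ^ 2) (hNK : N ≤ K) (hK : ((2 * K : ℕ) : ℝ) ≤ T ^ 6)
    (S : Finset (ℕ × ℕ)) (hS : S ⊆ FR X) (hSK : ∀ p ∈ S, (K : ℝ) < ht p ∧ ht p ≤ 2 * K)
    {c : ℝ} (hc0 : 0 ≤ c) (hcU : c ≤ U) :
    ∫ t in a..T, ‖∑ p ∈ S, ((((√(ht p))⁻¹ : ℝ) : ℂ) * ee c p) *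
        (((√(ht p) * (cr X p (t + c) - cr X p t) : ℝ) : ℂ) * ee t p)‖ ^ 2 ≤
      C3 * (2 * (C1 + C4)) ^ 2 * 105000 * Real.log T ^ 5 * (U ^ 2 / T + U) := by
  obtain ⟨hL, ha1, hUT, hNT, hlX, -, -⟩ := par hP hX2 hX1
  obtain ⟨hT, hU1, hU, ha, haT, hN1, hN, hNU⟩ := hP
  set L := Real.log T with hLd
  have hT0 : 0 < T := by linarith
  have ha0 : 0 < a := by linarith
  have hU0 : 0 < U := by linarith
  have hKn : 1 ≤ K := hN1.trans hNK
  have hK1 : (1 : ℝ) ≤ K := by exact_mod_cast hKn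
  have hK0 : (0 : ℝ) < K := by linarith
  have hX1' : (1 : ℝ) ≤ X := by exact_mod_cast hX1
  have hlX0 : 0 ≤ Real.log X := Real.log_nonneg hX1'
  set m := min 1 ((2 * T / K) ^ 2) with hm
  have hm0 : 0 ≤ m := le_min zero_le_one (by positivity)
  have hm1 : m ≤ 1 := min_le_left _ _
  have hUa0 : 0 ≤ U / a := by positivity
  have hUa2 : U / a ≤ 2 := by
    rw [div_le_iff₀ ha0]
    linarith
  set μ := min (U / a) m with hμ
  have hμ0 : 0 ≤ μ := le_min hUa0 hm0
  set w := 2 * (C1 + C4) * (1 + Real.log X) * μ with hw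
  have hw0 : 0 ≤ w := by positivity
  have hmem : ∀ p ∈ S, 1 ≤ p.1 ∧ 1 ≤ p.2 := fun p hp => by
    have := Pool.Agent.Y545.GP.mem_FR.1 (hS hp)
    exact ⟨this.1, this.2.1⟩
  have hht : ∀ p ∈ S, 0 < ht p := fun p hp => hK0.trans (hSK p hp).1
  have hsq : ∀ p ∈ S, √(ht p) * (√(ht p))⁻¹ = 1 := fun p hp =>
    mul_inv_cancel₀ (Real.sqrt_pos.2 (hht p hp)).ne'
  have hSF : S ⊆ FR (2 * K) := by
    intro p hp
    have h1 := Pool.Agent.Y545.GP.mem_FR.1 (hS hp)
    have h2 := (hSK p hp).2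
    rw [Pool.Agent.Y545.GP.mem_FR]
    refine ⟨h1.1, h1.2.1, ?_, h1.2.2.2⟩
    unfold ht at h2
    exact_mod_cast h2
  -- the derivative with decay
  have hder : ∀ p ∈ S, ∀ s ∈ Icc a (2 * T),
      |deriv (cr X p) s| ≤ C1 * (1 + Real.log X) * (√(ht p))⁻¹ * m / a := by
    intro p hp s hs
    have hs0 : 0 < s := lt_of_lt_of_le ha0 hs.1
    have h7 := (hcrd X p s hX1 (hmem p hp).1 (hmem p hp).2 hs0).2
    rw [abs_mul, abs_of_pos hs0] at h7
    have h8 : min 1 ((s / ht p) ^ 2) ≤ m := by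
      refine min_le_min le_rfl (pow_le_pow_left₀ (div_nonneg hs0.le (hht p hp).le) ?_ 2)
      exact div_le_div₀ (by positivity) hs.2 hK0 (hSK p hp).1.le
    have hi : 0 ≤ (√(ht p))⁻¹ := inv_nonneg.2 (Real.sqrt_nonneg _)
    have h9 : C1 * (1 + Real.log X) * (√(ht p))⁻¹ * min 1 ((s / ht p) ^ 2) ≤
        C1 * (1 + Real.log X) * (√(ht p))⁻¹ * m := by gcongr
    rw [le_div_iff₀ ha0]
    have h10 : |deriv (cr X p) s| * a ≤ |deriv (cr X p) s| * s := by
      gcongr
      exact hs.1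
    linarith
  have key := (hlt (2 * K) a T w S
    (fun p t => ((√(ht p) * (cr X p (t + c) - cr X p t) : ℝ) : ℂ))
    (fun p t => ((√(ht p) * (deriv (cr X p) (t + c) - deriv (cr X p) t) : ℝ) : ℂ)) (by omega)
    (by linarith) ha0.le haT hw0 hSF ?_ ?_ ?_ ?_).1 (fun p => (((√(ht p))⁻¹ : ℝ) : ℂ) * ee c p)
  · refine key.trans ?_
    have h5 : ∑ p ∈ S, ‖(((√(ht p))⁻¹ : ℝ) : ℂ) * ee c p‖ ^ 2 ≤ (1 + Real.log X) ^ 2 := by
      refine le_trans ?_ (Pool.Agent.N879.GD.sum_FR_le X)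
      refine le_trans (Finset.sum_le_sum_of_subset_of_nonneg hS fun p _ _ => by positivity) ?_
      refine Finset.sum_le_sum fun p hp => le_of_eq ?_
      have h6 := Pool.Agent.Y545.GP.mem_FR.1 hp
      have h7 := Pool.Agent.Y545.GP.ht_pos h6.1 h6.2.1
      rw [norm_mul, ee_norm, mul_one, Complex.norm_real, Real.norm_eq_abs, sq_abs, inv_pow,
        Real.sq_sqrt h7.le]
    have h2K : ((2 * K : ℕ) : ℝ) = 2 * K := by push_cast; ring
    have hl2K : 1 + Real.log ((2 * K : ℕ) : ℝ) ≤ 7 * L := by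
      have h3 := Real.log_le_log (by rw [h2K]; positivity) hK
      rw [Real.log_pow] at h3
      push_cast at h3 ⊢
      linarith
    have hl2K0 : 0 ≤ Real.log ((2 * K : ℕ) : ℝ) := Real.log_nonneg (by rw [h2K]; linarith)
    have har := err_arith (T := T) (U := U) (a := a) (K := K) hT0 hU1 ha hK0
    rw [← hm, ← hμ] at har
    have hR0 : 0 ≤ U ^ 2 / T + U := by positivity
    have hw2 : w ^ 2 = (2 * (C1 + C4)) ^ 2 * (1 + Real.log X) ^ 2 * μ ^ 2 := by
      rw [hw]
      ring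
    calc C3 * ((T + ((2 * K : ℕ) : ℝ)) * (1 + Real.log ((2 * K : ℕ) : ℝ))) * w ^ 2 *
          ∑ p ∈ S, ‖(((√(ht p))⁻¹ : ℝ) : ℂ) * ee c p‖ ^ 2
        ≤ C3 * ((T + ((2 * K : ℕ) : ℝ)) * (1 + Real.log ((2 * K : ℕ) : ℝ))) * w ^ 2 *
          (1 + Real.log X) ^ 2 := by gcongr
      _ = C3 * (2 * (C1 + C4)) ^ 2 * (1 + Real.log X) ^ 4 * (1 + Real.log ((2 * K : ℕ) : ℝ)) *
          ((T + 2 * K) * μ ^ 2) := by
          rw [hw2, h2K]
          ring
      _ ≤ C3 * (2 * (C1 + C4)) ^ 2 * (5 * L) ^ 4 * (7 * L) * (24 * (U ^ 2 / T + U)) := by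
          gcongr
      _ = _ := by ring
  · intro p hp x hx
    have hx0 : 0 < x := by linarith [hx.1]
    have h6 := (hcr X p (hS hp) (x + c) (by linarith)).1.hasDerivAt.comp_add_const x c
    have h7 := (hcr X p (hS hp) x hx0).1.hasDerivAt
    exact ((h6.sub h7).const_mul _).ofReal_comp
  · intro p hp
    refine continuous_ofReal.comp_continuousOn ?_
    refine continuousOn_const.mul (ContinuousOn.sub ?_ ?_)
    · intro x hx
      have h6 : ContinuousAt (deriv (cr X p)) (x + c) :=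
        (hcr X p (hS hp) (x + c) (by linarith [hx.1])).2.1.continuousAt
      exact (ContinuousAt.comp' (f := fun x : ℝ => x + c) h6 (by fun_prop)).continuousWithinAt
    · intro x hx
      exact (hcr X p (hS hp) x (by linarith [hx.1])).2.1.continuousAt.continuousWithinAt
  · intro p hp x hx
    have hs0 : 0 < √(ht p) := Real.sqrt_pos.2 (hht p hp)
    have h6 := Convex.norm_image_sub_le_of_norm_deriv_le (f := cr X p) (s := Icc a (2 * T))
      (C := C1 * (1 + Real.log X) * (√(ht p))⁻¹ * m / a) (x := x) (y := x + c)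
      (fun s hs => (hcr X p (hS hp) s (lt_of_lt_of_le ha0 hs.1)).1)
      (fun s hs => by rw [Real.norm_eq_abs]; exact hder p hp s hs) (convex_Icc _ _)
      ⟨hx.1, by linarith [hx.2]⟩ ⟨by linarith [hx.1], by linarith [hx.2]⟩
    rw [add_sub_cancel_left, Real.norm_eq_abs, Real.norm_eq_abs, abs_of_nonneg hc0] at h6
    rw [Complex.norm_real, Real.norm_eq_abs, abs_mul, abs_of_pos hs0]
    have hmU : m * (U / a) ≤ 2 * μ := by
      rcases min_choice (U / a) m with h | h
      · rw [hμ, h]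
        nlinarith
      · rw [hμ, h]
        nlinarith
    calc √(ht p) * |cr X p (x + c) - cr X p x|
        ≤ √(ht p) * (C1 * (1 + Real.log X) * (√(ht p))⁻¹ * m / a * c) := by gcongr
      _ = √(ht p) * (√(ht p))⁻¹ * (C1 * (1 + Real.log X) * (m * (c / a))) := by ring
      _ = C1 * (1 + Real.log X) * (m * (c / a)) := by rw [hsq p hp, one_mul]
      _ ≤ C1 * (1 + Real.log X) * (m * (U / a)) := by gcongr
      _ ≤ (C1 + C4) * (1 + Real.log X) * (2 * μ) := by
          gcongr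
          linarith
      _ = w := by rw [hw]; ring
  · intro p hp
    have hs0 : 0 < √(ht p) := Real.sqrt_pos.2 (hht p hp)
    have h5 : ∀ x ∈ Icc a T, ‖((√(ht p) * (deriv (cr X p) (x + c) - deriv (cr X p) x) : ℝ) : ℂ)‖ ≤
        C4 * (1 + Real.log X) * c * (x ^ 2)⁻¹ := by
      intro x hx
      have hx0 : 0 < x := by linarith [hx.1]
      have h6 := Convex.norm_image_sub_le_of_norm_deriv_le (f := deriv (cr X p)) (s := Ici x)
        (C := C4 * (1 + Real.log X) * (√(ht p))⁻¹ / x ^ 2) (x := x) (y := x + c)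
        (fun s hs => (hcr X p (hS hp) s (lt_of_lt_of_le hx0 hs)).2.1) (fun s hs => by
          have hs0' : 0 < s := lt_of_lt_of_le hx0 hs
          have h7 := (hcr X p (hS hp) s hs0').2.2.2.2.2
          rw [abs_mul, abs_of_pos (by positivity : (0 : ℝ) < s ^ 2)] at h7
          rw [Real.norm_eq_abs, le_div_iff₀ (by positivity)]
          have hs1 : x ≤ s := hs
          have hs2 : x ^ 2 ≤ s ^ 2 := pow_le_pow_left₀ hx0.le hs1 2
          nlinarith [abs_nonneg (deriv (deriv (cr X p)) s)]) (convex_Ici x) self_mem_Ici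
        (by change x ≤ x + c; linarith)
      rw [add_sub_cancel_left, Real.norm_eq_abs, Real.norm_eq_abs, abs_of_nonneg hc0] at h6
      rw [Complex.norm_real, Real.norm_eq_abs, abs_mul, abs_of_pos hs0]
      calc √(ht p) * |deriv (cr X p) (x + c) - deriv (cr X p) x|
          ≤ √(ht p) * (C4 * (1 + Real.log X) * (√(ht p))⁻¹ / x ^ 2 * c) := by gcongr
        _ = √(ht p) * (√(ht p))⁻¹ * (C4 * (1 + Real.log X) * c * (x ^ 2)⁻¹) := by ring
        _ = C4 * (1 + Real.log X) * c * (x ^ 2)⁻¹ := by rw [hsq p hp, one_mul]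
    have h5' : ∀ x ∈ Icc a T, ‖((√(ht p) * (deriv (cr X p) (x + c) - deriv (cr X p) x) : ℝ) : ℂ)‖ ≤
        2 * (C1 * (1 + Real.log X) * m / a) := by
      intro x hx
      have h6 := hder p hp x ⟨hx.1, by linarith [hx.2]⟩
      have h7 := hder p hp (x + c) ⟨by linarith [hx.1], by linarith [hx.2]⟩
      rw [Complex.norm_real, Real.norm_eq_abs, abs_mul, abs_of_pos hs0]
      calc √(ht p) * |deriv (cr X p) (x + c) - deriv (cr X p) x|
          ≤ √(ht p) * (|deriv (cr X p) (x + c)| + |deriv (cr X p) x|) := by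
            gcongr
            exact abs_sub _ _
        _ ≤ √(ht p) * (C1 * (1 + Real.log X) * (√(ht p))⁻¹ * m / a +
            C1 * (1 + Real.log X) * (√(ht p))⁻¹ * m / a) := by gcongr
        _ = √(ht p) * (√(ht p))⁻¹ * (2 * (C1 * (1 + Real.log X) * m / a)) := by ring
        _ = _ := by rw [hsq p hp, one_mul]
    have hcont : ContinuousOn (fun x =>
        ‖((√(ht p) * (deriv (cr X p) (x + c) - deriv (cr X p) x) : ℝ) : ℂ)‖) (Icc a T) := by
      refine (continuous_ofReal.comp_continuousOn ?_).norm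
      refine continuousOn_const.mul (ContinuousOn.sub ?_ ?_)
      · intro x hx
        have h6 : ContinuousAt (deriv (cr X p)) (x + c) :=
          (hcr X p (hS hp) (x + c) (by linarith [hx.1])).2.1.continuousAt
        exact (ContinuousAt.comp' (f := fun x : ℝ => x + c) h6 (by fun_prop)).continuousWithinAt
      · intro x hx
        exact (hcr X p (hS hp) x (by linarith [hx.1])).2.1.continuousAt.continuousWithinAt
    have hinv : ContinuousOn (fun x : ℝ => (x ^ 2)⁻¹) (Icc a T) := by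
      refine ContinuousOn.inv₀ (by fun_prop) fun x hx => pow_ne_zero 2 ?_
      linarith [hx.1]
    have hI1 : ∫ x in a..T, ‖((√(ht p) * (deriv (cr X p) (x + c) - deriv (cr X p) x) : ℝ) : ℂ)‖ ≤
        C4 * (1 + Real.log X) * (U / a) := by
      calc ∫ x in a..T, ‖((√(ht p) * (deriv (cr X p) (x + c) - deriv (cr X p) x) : ℝ) : ℂ)‖
          ≤ ∫ x in a..T, C4 * (1 + Real.log X) * c * (x ^ 2)⁻¹ := by
            refine intervalIntegral.integral_mono_on haT ?_ ?_ h5
            · exact hcont.intervalIntegrable_of_Icc haT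
            · exact (hinv.const_smul (C4 * (1 + Real.log X) * c)).intervalIntegrable_of_Icc haT
        _ = C4 * (1 + Real.log X) * c * ∫ x in a..T, (x ^ 2)⁻¹ := by
            rw [intervalIntegral.integral_const_mul]
        _ ≤ C4 * (1 + Real.log X) * U * a⁻¹ := by
            have h8 := int_inv_sq ha0 haT
            have h9 : 0 ≤ ∫ x in a..T, (x ^ 2)⁻¹ :=
              intervalIntegral.integral_nonneg haT fun t _ => by positivity
            gcongr
        _ = _ := by ring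
    have hI2 : ∫ x in a..T, ‖((√(ht p) * (deriv (cr X p) (x + c) - deriv (cr X p) x) : ℝ) : ℂ)‖ ≤
        2 * C1 * (1 + Real.log X) * m := by
      calc ∫ x in a..T, ‖((√(ht p) * (deriv (cr X p) (x + c) - deriv (cr X p) x) : ℝ) : ℂ)‖
          ≤ ∫ x in a..T, 2 * (C1 * (1 + Real.log X) * m / a) := by
            refine intervalIntegral.integral_mono_on haT ?_ ?_ h5'
            · exact hcont.intervalIntegrable_of_Icc haT
            · exact continuous_const.intervalIntegrable _ _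
        _ = (T - a) * (2 * (C1 * (1 + Real.log X) * m / a)) := by
            rw [intervalIntegral.integral_const, smul_eq_mul]
        _ ≤ a * (2 * (C1 * (1 + Real.log X) * m / a)) := by
            have : T - a ≤ a := by linarith
            gcongr
        _ = _ := by
            field_simp
    rcases min_choice (U / a) m with h | h
    · rw [hw, hμ, h]
      refine hI1.trans ?_
      have : C4 ≤ 2 * (C1 + C4) := by linarith
      gcongr
    · rw [hw, hμ, h]
      refine hI2.trans ?_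
      have : 2 * C1 ≤ 2 * (C1 + C4) := by linarith
      gcongr


theorem kh3 : S_KH3 := by
  classical
  obtain ⟨C1, hC1, hcrd⟩ := Pool.Agent.N879.PZ.t_CRD
  obtain ⟨C2, hC2, hlc⟩ := Pool.Agent.N879.PZ.t_LC
  obtain ⟨C3, hC3, hlt⟩ := Pool.Agent.N879.PZ.t_LT
  obtain ⟨-, -, C4, hC4, hcr⟩ := Pool.Agent.Y545.GP.t_CR Pool.Agent.Y587.GP.t_V
  refine ⟨2 * 49 * (C2 * C3 * C1 ^ 2 * 1575) + 4 * 49 * (C3 * (2 * (C1 + C4)) ^ 2 * 105000), 7,
    by positivity, ?_⟩
  intro T U a N X F hP hXlo hXhi hF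
  have hP' := hP
  have hX1 : 1 ≤ X := by
    have h4 : (1 : ℝ) ≤ X := by nlinarith [hP.1]
    exact_mod_cast h4
  obtain ⟨hL, ha1, hUT, hNT, hlX, hr, hX4⟩ := par hP hXhi hX1
  obtain ⟨hT, hU1, hU, ha, haT, hN1, hN, hNU⟩ := hP
  set L := Real.log T with hLd
  have hT0 : 0 < T := by linarith
  have ha0 : 0 < a := by linarith
  have hU0 : 0 ≤ U := by linarith
  set S := (FR X).filter (fun p => (N : ℝ) < ht p) with hS
  have hSX : S ⊆ FR X := Finset.filter_subset _ _
  set P := ∫ t in a..T, ‖F t‖ ^ 2 with hPd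
  have hP0 : 0 ≤ P := intervalIntegral.integral_nonneg haT fun t _ => by positivity
  set z : ℕ × ℕ → ℂ := fun p => ∫ t in a..T, F t * (((cr X p t : ℝ) : ℂ) * ee t p) with hz
  set Eb := C3 * (2 * (C1 + C4)) ^ 2 * 105000 * L ^ 5 * (U ^ 2 / T + U) with hEb
  have hEb0 : 0 ≤ Eb := by positivity
  set Er := 49 * L ^ 2 * Eb with hEr
  have hEr0 : 0 ≤ Er := by positivity
  have hcrc : ∀ p ∈ S, ∀ b : ℝ, 0 ≤ b → ContinuousOn (fun t => cr X p (t + b)) (Icc a T) := by
    intro p hp b hb x hx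
    have h6 : ContinuousAt (cr X p) (x + b) :=
      (hcr X p (hSX hp) (x + b) (by linarith [hx.1])).1.continuousAt
    exact (ContinuousAt.comp' (f := fun x : ℝ => x + b) h6 (by fun_prop)).continuousWithinAt
  -- the blocks
  set r := Nat.log 2 X + 1 with hrd
  have hex : ∀ p ∈ S, ∃ i < r, N * 2 ^ i < p.1 * p.2 ∧ p.1 * p.2 ≤ N * 2 ^ (i + 1) := by
    intro p hp
    rw [hS, Finset.mem_filter] at hp
    have h4 := Pool.Agent.Y545.GP.mem_FR.1 hp.1
    refine exists_blk r ?_ ?_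
    · have h5 := Nat.lt_pow_succ_log_self (b := 2) (by norm_num) X
      have h6 : 2 ^ r ≤ N * 2 ^ r := Nat.le_mul_of_pos_left _ hN1
      have h7 : 2 ^ (Nat.log 2 X).succ = 2 ^ r := rfl
      have h8 := h4.2.2.1
      omega
    · have h5 := hp.2
      unfold ht at h5
      exact_mod_cast h5
  have hind : ∃ ind : ℕ × ℕ → ℕ, ∀ p ∈ S, ind p < r ∧ N * 2 ^ (ind p) < p.1 * p.2 ∧
      p.1 * p.2 ≤ N * 2 ^ (ind p + 1) := by
    refine ⟨fun p => if h : p ∈ S then (hex p h).choose else 0, fun p hp => ?_⟩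
    simp only [hp, dif_pos]
    exact (hex p hp).choose_spec
  obtain ⟨ind, hind⟩ := hind
  have hNK : ∀ i, N ≤ N * 2 ^ i := fun i => Nat.le_mul_of_pos_right _ (by positivity)
  have hKT : ∀ i ∈ Finset.range r, ((2 * (N * 2 ^ i) : ℕ) : ℝ) ≤ T ^ 6 := by
    intro i hi
    have hi' : i ≤ Nat.log 2 X := by
      have := Finset.mem_range.1 hi
      omega
    have h6 : 2 ^ i ≤ X := (Nat.pow_le_pow_right (by norm_num) hi').trans
      (Nat.pow_log_le_self 2 (by omega))
    have h7 : ((2 ^ i : ℕ) : ℝ) ≤ T ^ 4 := (by exact_mod_cast h6 : ((2 ^ i : ℕ) : ℝ) ≤ X).trans hX4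
    calc ((2 * (N * 2 ^ i) : ℕ) : ℝ) = 2 * (N * ((2 ^ i : ℕ) : ℝ)) := by push_cast; ring
      _ ≤ T * (T * T ^ 4) := by
          gcongr
          linarith
      _ = T ^ 6 := by ring
  have hfil : ∀ i, S.filter (fun p => ind p = i) ⊆ FR X := fun i =>
    (Finset.filter_subset _ _).trans hSX
  have hblk : ∀ i, ∀ p ∈ S.filter (fun p => ind p = i),
      ((N * 2 ^ i : ℕ) : ℝ) < ht p ∧ ht p ≤ 2 * ((N * 2 ^ i : ℕ) : ℝ) := by
    intro i p hp
    rw [Finset.mem_filter] at hp
    obtain ⟨-, h6, h7⟩ := hind p hp.1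
    rw [hp.2] at h6 h7
    unfold ht
    constructor
    · exact_mod_cast h6
    · have h8 : p.1 * p.2 ≤ 2 * (N * 2 ^ i) := by
        rw [pow_succ] at h7
        linarith
      exact_mod_cast h8
  have hsplit : ∀ g : ℕ × ℕ → ℂ, ‖∑ p ∈ S, g p‖ ^ 2 ≤
      r * ∑ i ∈ Finset.range r, ‖∑ p ∈ S.filter (fun p => ind p = i), g p‖ ^ 2 := by
    intro g
    rw [← Finset.sum_fiberwise_of_maps_to (s := S) (t := Finset.range r) (g := ind)
      (fun p hp => Finset.mem_range.2 (hind p hp).1)]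
    have := norm_sum_sq (Finset.range r)
      (fun i => ∑ p ∈ S.filter (fun p => ind p = i), g p)
    rwa [Finset.card_range] at this
  have hr7 : (r : ℝ) ≤ 7 * L := by
    rw [hrd]
    push_cast
    exact hr
  -- the pointwise bound
  have hpt : ∀ c ∈ Icc 0 U, ‖∫ t in a..T, F t * HH N X (t + c)‖ ^ 2 ≤
      2 * ‖∑ p ∈ S, z p * ee c p‖ ^ 2 + 2 * (P * Er) := by
    intro c hc
    set G : ℕ × ℕ → ℝ → ℂ := fun p t => ((((√(ht p))⁻¹ : ℝ) : ℂ) * ee c p) *
        (((√(ht p) * (cr X p (t + c) - cr X p t) : ℝ) : ℂ) * ee t p) with hG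
    set E : ℝ → ℂ := fun t => ∑ p ∈ S, G p t with hE
    have hGcont : ∀ p ∈ S, ContinuousOn (G p) (Icc a T) := by
      intro p hp
      refine continuousOn_const.mul (ContinuousOn.mul ?_ (ee_cont p).continuousOn)
      refine continuous_ofReal.comp_continuousOn ?_
      refine continuousOn_const.mul (ContinuousOn.sub (hcrc p hp c hc.1) ?_)
      have := hcrc p hp 0 le_rfl
      simpa using this
    have hEc : ContinuousOn E (Icc a T) := continuousOn_finsetSum _ fun p hp => hGcont p hp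
    have hEi : ∀ i, ContinuousOn (fun t => ∑ p ∈ S.filter (fun p => ind p = i), G p t)
        (Icc a T) := fun i => continuousOn_finsetSum _ fun p hp =>
      hGcont p (Finset.mem_of_mem_filter p hp)
    have hGc : ∀ p ∈ S, ContinuousOn (fun t => ((cr X p t : ℝ) : ℂ) * ee t p) (Icc a T) := by
      intro p hp
      refine ContinuousOn.mul ?_ (ee_cont p).continuousOn
      refine continuous_ofReal.comp_continuousOn ?_
      have := hcrc p hp 0 le_rfl
      simpa using this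
    have h4 : ∀ t, HH N X (t + c) = (∑ p ∈ S, (((cr X p t : ℝ) : ℂ) * ee t p) * ee c p) + E t := by
      intro t
      rw [hE]
      simp only [hG]
      rw [← Finset.sum_add_distrib]
      unfold HH
      refine Finset.sum_congr rfl fun p hp => ?_
      have h5 := Pool.Agent.Y545.GP.mem_FR.1 (hSX hp)
      have h6 := Real.sqrt_pos.2 (Pool.Agent.Y545.GP.ht_pos h5.1 h5.2.1)
      have h7 : ((√(ht p) : ℝ) : ℂ) ≠ 0 := by exact_mod_cast h6.ne'
      rw [ee_add]
      push_cast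
      field_simp
      ring
    have hFG : ∀ p ∈ S, IntervalIntegrable (fun t => F t * (((cr X p t : ℝ) : ℂ) * ee t p) * ee c p)
        volume a T := fun p hp => (int_mul haT hF (hGc p hp)).mul_const _
    have h5 : ∫ t in a..T, F t * HH N X (t + c) =
        (∑ p ∈ S, z p * ee c p) + ∫ t in a..T, F t * E t := by
      have e1 : ∀ t, F t * HH N X (t + c) =
          (∑ p ∈ S, F t * (((cr X p t : ℝ) : ℂ) * ee t p) * ee c p) + F t * E t := by
        intro t
        rw [h4, mul_add, Finset.mul_sum]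
        congr 1
        refine Finset.sum_congr rfl fun p _ => ?_
        ring
      simp only [e1]
      have hsum : IntervalIntegrable (fun t => ∑ p ∈ S, F t * (((cr X p t : ℝ) : ℂ) * ee t p) *
          ee c p) volume a T := by
        have e2 : (fun t => ∑ p ∈ S, F t * (((cr X p t : ℝ) : ℂ) * ee t p) * ee c p) =
            ∑ p ∈ S, fun t => F t * (((cr X p t : ℝ) : ℂ) * ee t p) * ee c p := by
          funext t
          rw [Finset.sum_apply]
        rw [e2]
        exact IntervalIntegrable.sum S hFG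
      rw [intervalIntegral.integral_add hsum (int_mul haT hF hEc),
        intervalIntegral.integral_finset_sum hFG]
      congr 1
      refine Finset.sum_congr rfl fun p _ => ?_
      rw [intervalIntegral.integral_mul_const]
    have hEE : ∫ t in a..T, ‖E t‖ ^ 2 ≤ Er := by
      have hi2 : ∀ i, IntervalIntegrable
          (fun t => ‖∑ p ∈ S.filter (fun p => ind p = i), G p t‖ ^ 2) volume a T := fun i =>
        ((hEi i).norm.pow 2).intervalIntegrable_of_Icc haT
      have hisum : IntervalIntegrable (fun t => ∑ i ∈ Finset.range r,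
          ‖∑ p ∈ S.filter (fun p => ind p = i), G p t‖ ^ 2) volume a T := by
        refine ContinuousOn.intervalIntegrable_of_Icc haT ?_
        exact continuousOn_finsetSum _ fun i _ => (hEi i).norm.pow 2
      calc ∫ t in a..T, ‖E t‖ ^ 2
          ≤ ∫ t in a..T, r * ∑ i ∈ Finset.range r,
              ‖∑ p ∈ S.filter (fun p => ind p = i), G p t‖ ^ 2 := by
            refine intervalIntegral.integral_mono_on haT ?_ ?_ fun t _ => hsplit fun p => G p t
            · exact (hEc.norm.pow 2).intervalIntegrable_of_Icc haT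
            · exact hisum.const_mul _
        _ = r * ∑ i ∈ Finset.range r, ∫ t in a..T,
              ‖∑ p ∈ S.filter (fun p => ind p = i), G p t‖ ^ 2 := by
            rw [intervalIntegral.integral_const_mul, intervalIntegral.integral_finset_sum]
            intro i _
            exact hi2 i
        _ ≤ r * ∑ i ∈ Finset.range r, Eb := by
            gcongr with i hi
            exact err3 hC1 hC3 hC4 hcrd hlt hcr hP' hX1 hXhi (K := N * 2 ^ i) (hNK i) (hKT i hi)
              (S.filter (fun p => ind p = i)) (hfil i) (hblk i) hc.1 hc.2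
        _ = (r : ℝ) ^ 2 * Eb := by
            rw [Finset.sum_const, Finset.card_range, nsmul_eq_mul]
            ring
        _ ≤ (7 * L) ^ 2 * Eb := by gcongr
        _ = Er := by rw [hEr]; ring
    have h6 : ‖∫ t in a..T, F t * E t‖ ^ 2 ≤ P * Er := by
      have hE2 : IntervalIntegrable (fun t => ‖E t‖ ^ 2) volume a T :=
        (hEc.norm.pow 2).intervalIntegrable_of_Icc haT
      have hFE : IntervalIntegrable (fun t => ‖F t‖ * ‖E t‖) volume a T := by
        have := (int_mul haT hF hEc).norm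
        simpa only [norm_mul] using this
      refine (cs_int haT (int_sq haT hF) hE2 hFE).trans ?_
      exact mul_le_mul_of_nonneg_left hEE hP0
    rw [h5]
    set x1 := ∑ p ∈ S, z p * ee c p
    set x2 := ∫ t in a..T, F t * E t
    have h7 : ‖x1 + x2‖ ^ 2 ≤ 2 * ‖x1‖ ^ 2 + 2 * ‖x2‖ ^ 2 := by
      have h8 := norm_add_le x1 x2
      have h9 := pow_le_pow_left₀ (norm_nonneg _) h8 2
      nlinarith [sq_nonneg (‖x1‖ - ‖x2‖)]
    linarith
  have hlow : ∫ c in (0 : ℝ)..U, ‖∑ p ∈ S, z p * ee c p‖ ^ 2 ≤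
      49 * L ^ 2 * (C2 * C3 * C1 ^ 2 * 1575 * L ^ 5 * (T * (U / N + 1)) * P) := by
    set Bd := C2 * C3 * C1 ^ 2 * 1575 * L ^ 5 * (T * (U / N + 1)) * P with hBd
    have hN0 : (0 : ℝ) < N := by exact_mod_cast hN1
    have hBd0 : 0 ≤ Bd := by positivity
    have hc1 : ∀ S' : Finset (ℕ × ℕ), Continuous fun c => ‖∑ p ∈ S', z p * ee c p‖ ^ 2 := by
      intro S'
      refine (Continuous.norm ?_).pow 2
      exact continuous_finset_sum _ fun p _ => continuous_const.mul (ee_cont p)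
    have h5 : ∀ i ∈ Finset.range r, ∫ c in (0 : ℝ)..U,
        ‖∑ p ∈ S.filter (fun p => ind p = i), z p * ee c p‖ ^ 2 ≤ Bd := by
      intro i hi
      exact blk hC1 hC2 hC3 hcrd hlc hlt (fun X p hp u hu => ⟨(hcr X p hp u hu).1,
        (hcr X p hp u hu).2.1⟩) hP' hX1 hXhi hF (K := N * 2 ^ i) (hNK i) (hKT i hi)
        (S.filter (fun p => ind p = i)) (hfil i) (hblk i)
    calc ∫ c in (0 : ℝ)..U, ‖∑ p ∈ S, z p * ee c p‖ ^ 2
        ≤ ∫ c in (0 : ℝ)..U, r * ∑ i ∈ Finset.range r,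
            ‖∑ p ∈ S.filter (fun p => ind p = i), z p * ee c p‖ ^ 2 := by
          refine intervalIntegral.integral_mono_on hU0 ?_ ?_ fun c _ => hsplit fun p => z p * ee c p
          · exact (hc1 S).intervalIntegrable _ _
          · exact (continuous_const.mul (continuous_finset_sum _ fun i _ => hc1 _)).intervalIntegrable _ _
      _ = r * ∑ i ∈ Finset.range r, ∫ c in (0 : ℝ)..U,
            ‖∑ p ∈ S.filter (fun p => ind p = i), z p * ee c p‖ ^ 2 := by
          rw [intervalIntegral.integral_const_mul, intervalIntegral.integral_finset_sum]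
          intro i _
          exact (hc1 _).intervalIntegrable _ _
      _ ≤ r * ∑ i ∈ Finset.range r, Bd := by
          gcongr with i hi
          exact h5 i hi
      _ = (r : ℝ) ^ 2 * Bd := by
          rw [Finset.sum_const, Finset.card_range, nsmul_eq_mul]
          ring
      _ ≤ (7 * L) ^ 2 * Bd := by gcongr
      _ = _ := by ring
  -- the error
  have hUa : U * (U ^ 2 / T + U) ≤ 2 * U ^ 2 := by
    have h7 : U * (U ^ 2 / T) ≤ U ^ 2 := by
      have : U * (U ^ 2 / T) = U ^ 2 * (U / T) := by ring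
      rw [this]
      have h8 : U / T ≤ 1 := (div_le_one hT0).2 hU
      nlinarith [sq_nonneg U]
    nlinarith
  have hN0 : (0 : ℝ) < N := by exact_mod_cast hN1
  have hfin : 2 * (49 * L ^ 2 * (C2 * C3 * C1 ^ 2 * 1575 * L ^ 5 * (T * (U / N + 1)) * P)) +
      U * (2 * (P * Er)) ≤ (2 * 49 * (C2 * C3 * C1 ^ 2 * 1575) +
        4 * 49 * (C3 * (2 * (C1 + C4)) ^ 2 * 105000)) * L ^ 7 * (T * (U / N + 1) + U ^ 2) * P := by
    obtain ⟨R, hR⟩ : ∃ R : ℝ, R = T * (U / N + 1) := ⟨_, rfl⟩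
    have hR0 : 0 ≤ R := by rw [hR]; positivity
    have hU30 : 0 ≤ U ^ 2 := by positivity
    rw [← hR]
    obtain ⟨D, hD⟩ : ∃ D : ℝ, D = C3 * (2 * (C1 + C4)) ^ 2 * 105000 := ⟨_, rfl⟩
    have hD0 : 0 ≤ D := by rw [hD]; positivity
    have h4 : U * (2 * (P * Er)) ≤ 4 * 49 * D * L ^ 7 * U ^ 2 * P := by
      calc U * (2 * (P * Er)) = 2 * 49 * D * L ^ 7 *
            (U * (U ^ 2 / T + U)) * P := by rw [hEr, hEb, hD]; ring
        _ ≤ 2 * 49 * D * L ^ 7 * (2 * U ^ 2) * P := by gcongr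
        _ = _ := by ring
    rw [← hD]
    calc _ ≤ 2 * (49 * L ^ 2 * (C2 * C3 * C1 ^ 2 * 1575 * L ^ 5 * R * P)) +
          4 * 49 * D * L ^ 7 * U ^ 2 * P := by gcongr
      _ = 2 * 49 * (C2 * C3 * C1 ^ 2 * 1575) * L ^ 7 * R * P +
          4 * 49 * D * L ^ 7 * U ^ 2 * P := by ring
      _ ≤ 2 * 49 * (C2 * C3 * C1 ^ 2 * 1575) * L ^ 7 * (R + U ^ 2) * P +
          4 * 49 * D * L ^ 7 * (R + U ^ 2) * P := by
            have e1 : R ≤ R + U ^ 2 := by linarith
            have e2 : U ^ 2 ≤ R + U ^ 2 := by linarith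
            gcongr
      _ = _ := by ring
  by_cases hint : IntervalIntegrable (fun c => ‖∫ t in a..T, F t * HH N X (t + c)‖ ^ 2) volume 0 U
  · have hc2 : Continuous fun c => 2 * ‖∑ p ∈ S, z p * ee c p‖ ^ 2 := by
      refine continuous_const.mul ((Continuous.norm ?_).pow 2)
      exact continuous_finset_sum _ fun p _ => continuous_const.mul (ee_cont p)
    calc ∫ c in (0 : ℝ)..U, ‖∫ t in a..T, F t * HH N X (t + c)‖ ^ 2
        ≤ ∫ c in (0 : ℝ)..U, (2 * ‖∑ p ∈ S, z p * ee c p‖ ^ 2 + 2 * (P * Er)) := by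
          refine intervalIntegral.integral_mono_on hU0 hint ?_ hpt
          exact (hc2.add continuous_const).intervalIntegrable _ _
      _ = 2 * (∫ c in (0 : ℝ)..U, ‖∑ p ∈ S, z p * ee c p‖ ^ 2) + U * (2 * (P * Er)) := by
          rw [intervalIntegral.integral_add (hc2.intervalIntegrable _ _)
            (continuous_const.intervalIntegrable _ _), intervalIntegral.integral_const_mul,
            intervalIntegral.integral_const, sub_zero, smul_eq_mul]
      _ ≤ 2 * (49 * L ^ 2 * (C2 * C3 * C1 ^ 2 * 1575 * L ^ 5 * (T * (U / N + 1)) * P)) +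
          U * (2 * (P * Er)) := by gcongr
      _ ≤ _ := hfin
  · rw [intervalIntegral.integral_undef hint]
    positivity

end

end Pool.Agent.T9h52.HC
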